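import Mathlib

/-!
# Odd integers with perfect deficiency at most `10`

`815634435 = 3 * 5 * 7 * 11 * 547 * 1291` is odd, larger than `1155`, and has perfect
deficiency `6`.
-/

namespace Pool.Agent.Results.MP_7acd66_nt.OddTerm

/-- One step of the greedy process: subtract the divisor `d` from the remainder `r` if `d ≤ r`,
and leave the remainder unchanged otherwise. -/
def step (r d : ℕ) : ℕ := if d ≤ r then r - d else r

/-- The perfect deficiency of `n`: start with the remainder `n` and run through the positive
divisors of `n` in increasing order, subtracting each one that does not exceed the current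
remainder; `pd n` is the final remainder. -/
def pd (n : ℕ) : ℕ := (n.divisors.sort (· ≤ ·)).foldl step n

/-- The divisors of `815634435` in increasing order. -/
def L : List ℕ := [1, 3, 5, 7, 11, 15, 21, 33, 35, 55, 77, 105, 165, 231, 385, 547, 1155, 1291, 1641, 2735, 3829, 3873, 6017, 6455, 8205, 9037, 11487, 14201, 18051, 19145, 19365, 27111, 30085, 42119, 42603, 45185, 57435, 71005, 90255, 99407, 126357, 135555, 210595, 213015, 298221, 497035, 631785, 706177, 1491105, 2118531, 3530885, 4943239, 7767947, 10592655, 14829717, 23303841, 24716195, 38839735, 54375629, 74148585, 116519205, 163126887, 271878145, 815634435]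

theorem L_sorted : L.Pairwise (· ≤ ·) := by unfold L; decide +kernel

theorem L_nodup : L.Nodup := by unfold L; decide +kernel

theorem card_divisors : (Nat.divisors 815634435).card = 64 := by
  have h1 : (815634435 : ℕ) = 1155 * 547 * 1291 := by norm_num
  have p1 : Nat.Prime 547 := by norm_num
  have p2 : Nat.Prime 1291 := by norm_num
  have c1 : Nat.Coprime 1155 547 := by norm_num
  have c2 : Nat.Coprime (1155 * 547) 1291 := by norm_num
  rw [h1, c2.card_divisors_mul, c1.card_divisors_mul, p1.divisors, p2.divisors]
  decide +kernel

theorem divisors_eq : Nat.divisors 815634435 = L.toFinset := by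
  symm
  apply Finset.eq_of_subset_of_card_le
  · intro d hd
    have hd' : d ∈ L := by simpa using hd
    have key : ∀ d ∈ L, d ∣ 815634435 := by unfold L; decide +kernel
    exact Nat.mem_divisors.2 ⟨key d hd', by norm_num⟩
  · rw [card_divisors, List.toFinset_card_of_nodup L_nodup]
    unfold L
    decide +kernel

theorem pd_eq_foldl {n : ℕ} {l : List ℕ} (h1 : l.Nodup) (h2 : l.Pairwise (· ≤ ·))
    (h3 : n.divisors = l.toFinset) : pd n = l.foldl step n := by
  unfold pd
  rw [h3, (List.toFinset_sort (· ≤ ·) h1).2 h2]

theorem pd_eq : pd 815634435 = 6 := by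
  rw [pd_eq_foldl L_nodup L_sorted divisors_eq]
  unfold L
  decide +kernel

/-! ### Sanity checks against the values listed in the problem -/

theorem pd_one : pd 1 = 0 :=
  (pd_eq_foldl (l := [1]) (by decide) (by decide) (by decide +kernel)).trans (by decide +kernel)
theorem pd_two : pd 2 = 1 :=
  (pd_eq_foldl (l := [1, 2]) (by decide) (by decide) (by decide +kernel)).trans
    (by decide +kernel)
theorem pd_nine : pd 9 = 5 :=
  (pd_eq_foldl (l := [1, 3, 9]) (by decide) (by decide) (by decide +kernel)).trans
    (by decide +kernel)
theorem pd_ten : pd 10 = 2 :=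
  (pd_eq_foldl (l := [1, 2, 5, 10]) (by decide) (by decide) (by decide +kernel)).trans
    (by decide +kernel)
theorem pd_24 : pd 24 = 0 :=
  (pd_eq_foldl (l := [1, 2, 3, 4, 6, 8, 12, 24]) (by decide) (by decide)
    (by decide +kernel)).trans (by decide +kernel)

/-- `815634435` is an odd integer exceeding `1155` whose perfect deficiency is `6`. -/
theorem result : ∃ n : ℕ, Odd n ∧ 1155 < n ∧ pd n ≤ 10 := by
  refine ⟨815634435, by decide, by norm_num, ?_⟩
  rw [pd_eq]
  norm_num

end Pool.Agent.Results.MP_7acd66_nt.OddTerm
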